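import Pool.Agent.Y216.EcF

/-!
MP_8d161d_ag, Q1: the Green-Griffiths-Lang conjecture for projective varieties with a generically
finite map to the space of the binary forms of degree `n`, which is ramified, with any
multiplicities, for instance multiplicity two, over the hyperplanes of the forms which vanish at
given points of the projective line; with the exceptional locus of the entire curves.
-/

set_option autoImplicit false

namespace Pool.Agent.Results.MP_8d161d_ag.BinaryForms

open Pool.Agent.W602.Cov.R Pool.Agent.W602.GT Pool.Agent.Y216

/-- Let `n ≥ 1`, let `(u i : v i)`, `i < q`, be distinct points of the projective line, and let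
`m i ≥ 1` with `2 * n < ∑ i, (1 - 1 / m i)`. Let `X` be a closed subset of `P^N × P^n`, where `P^n`
is the space of the binary forms `∑ l, y l * S ^ (n - l) * T ^ l`, such that the projection to `P^n`
is ramified to the order `m i` over the hyperplane of the forms which vanish at `(u i : v i)`, for
every `i`: the contact order of a point of `X` over a discretely valued field with this hyperplane
is zero or at least `m i`.

If `X` is irreducible and its projection to `P^n` is dominant and generically finite, then `X` is of
general type and pseudo-Brody hyperbolic. For every `X` as above, every entire curve in `X` lies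
over one of the `q` hyperplanes, or over the hypersurface of the binary forms with vanishing
discriminant, or over a point of `P^n`. -/
theorem result {N n q : ℕ} (hn : 1 ≤ n) (u v : Fin q → ℂ)
    (huv : ∀ i j, i ≠ j → u i * v j ≠ u j * v i) (m : Fin q → ℕ) (hm : ∀ i, 1 ≤ m i)
    (hsum : 2 * (n : ℝ) < ∑ i, (1 - 1 / (m i : ℝ))) (X : BiSet N n)
    (hR : Orbi X (fun i l => u i ^ (n - l) * v i ^ (l : ℕ)) m) :
    (∀ (K : Type) [Field K] [Algebra ℂ K] (a : Fin (N + 1) → K) (b : Fin (n + 1) → K),
      X.FunctionField K a b → BiSet.GenFinite b → GeneralType ℂ K n ∧ X.PseudoBrody) ∧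
    ∀ x y, X.EntireCurve x y →
      (∃ i, ∀ z, ∑ l : Fin (n + 1), u i ^ (n - l) * v i ^ (l : ℕ) * y z l = 0) ∨
        (∀ z, binDisc (y z) = 0) ∨ ∀ z z', ∃ t : ℂ, y z' = t • y z :=
  ggl_binary hn huv hm hsum X hR

end Pool.Agent.Results.MP_8d161d_ag.BinaryForms
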