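import Pool.Agent.Y189.DD.Final

/-!
MP_8d161d_ag, Q1: Zariski-dense entire curves given by linear difference equations, or by other
linear functional equations, with polynomial coefficients.
-/

set_option autoImplicit false

namespace Pool.Agent.Results.MP_8d161d_ag.DifferenceEquationCurves

open MvPolynomial Filter
open scoped LinearAlgebra.Projectivization
open Pool.Agent.TH143.EL (HolMap InV Rep)
open Pool.Agent.TH143.GT (FunField Covered Pluricanonical)
open Pool.Agent.W602.GT (IsForm GeneralType)
open Pool.Agent.Y189.DC (PolEq)

variable {N : ℕ}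

/-- All forms that vanish on the curve `f` belong to the ideal `p`. -/
def ZariskiDense (p : Ideal (MvPolynomial (Fin (N + 1)) ℂ)) (f : ℂ → ℙ ℂ (Fin (N + 1) → ℂ)) :
    Prop :=
  ∀ G : MvPolynomial (Fin (N + 1)) ℂ, IsForm G → (∀ z, eval (f z).rep G = 0) → G ∈ p

/-- The entire curve `f` has meromorphic homogeneous coordinates each of which satisfies a
nontrivial linear functional equation `∑ P_k (z) h (σ^k (z)) = 0` with polynomial coefficients,
where `σ (z) = a z + b`, `a ≠ 0`, and no iterate of `σ` is the identity. For `a = 1` these are linear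
difference equations; for `b = 0` they are linear `q`-difference equations. -/
def GivenByEquations (a b : ℂ) (f : ℂ → ℙ ℂ (Fin (N + 1) → ℂ)) : Prop :=
  a ≠ 0 ∧ (∀ k, 0 < k → ∃ z, (fun z => a * z + b)^[k] z ≠ z) ∧
    ∃ h : Fin (N + 1) → ℂ → ℂ, (∀ j, Meromorphic (h j)) ∧
      (∀ j, PolEq (fun z => a * z + b) (h j)) ∧ ∀ᶠ z in codiscrete ℂ, Rep (f z) fun j => h j z

/-- Let `X` be the projective variety with the ideal `p`, the function field `K`, the generic point
`y` and the dimension `w`, and let `f` be a Zariski-dense entire curve in `X`.

(1) If `f` is given by linear functional equations with polynomial coefficients with respect to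
`σ (z) = a z + b`, then `X` is covered by rational curves, and all pluricanonical forms vanish, or
`f` is constant, or `a = 1` (so these are difference equations) and `k b` is a period of `f` for
some `k > 0`.

(2) Let `X` be of general type and `w > 0`. Then there is a complex number `c` such that all `σ`,
with respect to which `f` is given by such equations, are translations by rational multiples of
`c`, and multiples of these are periods of `f`. So there is no Zariski-dense entire curve in `X`
which is given by such equations with respect to some `σ (z) = a z + b`, `a ≠ 1`, or with respect to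
two translations by complex numbers which are linearly independent over the rational numbers. -/
theorem result (p : Ideal (MvPolynomial (Fin (N + 1)) ℂ)) (K : Type) [Field K] [Algebra ℂ K]
    (w : ℕ) (y : Fin (N + 1) → K) (hy : FunField p 1 K w y) (f : ℂ → ℙ ℂ (Fin (N + 1) → ℂ))
    (hf : HolMap f) (hX : ∀ z, InV p (f z)) (hd : ZariskiDense p f) :
    (∀ a b, GivenByEquations a b f →
      (Covered K ∧ ∀ n, 0 < n → ∀ ω : (Fin w → Derivation ℂ K K) → K,
        Pluricanonical w n ω → ω = 0) ∨
      (∀ z z', f z = f z') ∨ (a = 1 ∧ ∃ k : ℕ, 0 < k ∧ ∀ z, f (z + k * b) = f z)) ∧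
    (0 < w → GeneralType ℂ K w → ∃ c : ℂ, ∀ a b, GivenByEquations a b f →
      a = 1 ∧ (∃ r : ℚ, b = r * c) ∧ ∃ k : ℕ, 0 < k ∧ ∀ z, f (z + k * b) = f z) :=
  ⟨fun _ _ hc => Pool.Agent.Y189.DD.final hy hf hX hd hc,
    fun hw hgt => Pool.Agent.Y189.DD.final_gt hy hw hgt hf hX hd⟩

end Pool.Agent.Results.MP_8d161d_ag.DifferenceEquationCurves
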