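import Mathlib
import Pool.Agent.Y221.FQ.Gen

/-!
MP_8d161d_ag, Q1: the Green-Griffiths-Lang conjecture, with an explicit exceptional set, for the
finite images of systems of high powers, and for subvarieties of the finite images of their covers.

Let `V = {F = 0}` in `ℙⁿ` be a projective variety given by sums of at most `s` powers of linear
forms, or by forms with at most `s` monomials and divisible exponents. We consider the images
`X = {Φ = 0}` of `V`, and of the finite covers `W = {Ψ = 0}` of subvarieties of `V`, under finite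
morphisms with fibres of at most `r` points, where the exponents are at least
`4 n 10 ^ s (r + 1) ^ 7`. No assumption is made on the singularities and the branch loci.

The definitions are in `Pool/Agent/Y221/FQ/Defs.lean` (`im`, `Mor`, `Onto`, `FibresLe`, `Entire`),
`Pool/Agent/Y221/FQ/Top.lean` (`CoverGm`), `Pool/Agent/W602/GT/SpDefs.lean` (`Cone`, `SubVar`),
`Pool/Agent/W602/GT/SpGmDefs.lean` (`SpGm`), `Pool/Agent/W602/GT/MordDefs.lean` (`VarPts`,
`IsComponent`), `Pool/Agent/W602/GT/Cls.lean` (`HighPowers`), `Pool/Agent/Y221/BD/Defs.lean`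
(`PseudoBrody`), `Pool/Agent/TH466/QG/Strong.lean` (`StronglyGeneral`) and
`Pool/Agent/W619/PQ/Defs.lean` (`IsUniruled`).
-/

set_option autoImplicit false

namespace Pool.Agent.Results.MP_8d161d_ag.FiniteImages

open Pool.Agent.W602.GT Pool.Agent.Y221.FQ
open Pool.Agent.Y221.BD (PseudoBrody)
open Pool.Agent.TH466.QG (StronglyGeneral)
open Pool.Agent.W619.PQ (IsUniruled)

/-- Let `V = {F = 0}`, `s`, `N`, `r` be as above; `SpGm F` is the closure of the union of the images
of the nonconstant morphisms from the multiplicative group to `V`.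

(1) Let `W = {Ψ = 0}` be a projective variety with a morphism `B : W → V` and a surjective morphism
`G : W → X = {Φ = 0}` with fibres of at most `r` points, and let `Y` be the closed set
`G (B⁻¹ (SpGm F))`. Then all nonconstant entire curves in `X` lie in `Y`, and all closed
subvarieties `Z` of positive dimension of `X` which do not lie in `Y` are of general type, strongly
of general type (off a proper closed subset of `Z` all closed subvarieties of positive dimension are
of general type) and pseudo-Brody hyperbolic (all nonconstant entire curves in `Z` lie in a proper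
closed subset of `Z`).

(2) Let `G : V → X = {Φ = 0}` be a surjective morphism with fibres of at most `r` points. Then for
every irreducible component `Z` of `X`, of positive dimension: `Z` is of general type if and only if
it is pseudo-Brody hyperbolic, if and only if it is strongly of general type, if and only if it is
not uniruled, if and only if it does not lie in `G (SpGm F)`. -/
theorem result {n M : ℕ} {ι μ : Type} [Finite ι] {F : ι → MvPolynomial (Fin (n + 1)) ℂ}
    {Φ : μ → MvPolynomial (Fin (M + 1)) ℂ} {s N r : ℕ} (hF : HighPowers s N F) (hn : 1 ≤ n)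
    (hN : n * (4 * 10 ^ s * (r + 1) ^ 7) ≤ N) (hΦ : ∀ e, IsForm (Φ e)) :
    (∀ (m : ℕ) (κ : Type) (Ψ : κ → MvPolynomial (Fin (m + 1)) ℂ)
      (B : Fin (n + 1) → MvPolynomial (Fin (m + 1)) ℂ)
      (G : Fin (M + 1) → MvPolynomial (Fin (m + 1)) ℂ), (∀ e, IsForm (Ψ e)) → Mor Ψ F B →
      Mor Ψ Φ G → Onto Ψ Φ G → FibresLe Ψ G r →
      (∀ f, Entire Φ f → ∀ t, f t ∈ CoverGm Ψ F B G) ∧
      ∀ (L : Type) [Field L] [Algebra ℂ L] (w : ℕ) (z : Fin (M + 1) → L), 1 ≤ w →
        SubVar Φ L w z → ¬ VarPts ℂ z ⊆ CoverGm Ψ F B G →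
          GeneralType ℂ L w ∧ StronglyGeneral ℂ z ∧ PseudoBrody z) ∧
    (∀ G : Fin (M + 1) → MvPolynomial (Fin (n + 1)) ℂ, Mor F Φ G → Onto F Φ G → FibresLe F G r →
      ∀ (L : Type) [Field L] [Algebra ℂ L] (w : ℕ) (z : Fin (M + 1) → L), 1 ≤ w →
        SubVar Φ L w z → IsComponent Φ z →
          [GeneralType ℂ L w, PseudoBrody z, StronglyGeneral ℂ z, ¬ IsUniruled ℂ L w,
            ¬ VarPts ℂ z ⊆ im G '' SpGm F].TFAE) := by
  refine ⟨fun m κ Ψ B G hΨ hB hG hon hfib => gen_cover hΦ hΨ hB hG hon hfib hF hn hN, ?_⟩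
  intro G hG hon hfib L _ _ w z hw hz hc
  have h := (gen_tfae hΦ hG hon hfib hF hn hN hw hz).2 hc
  tfae_have 1 ↔ 2 := h.out 0 2
  tfae_have 3 ↔ 2 := h.out 1 2
  tfae_have 4 ↔ 2 := h.out 3 2
  tfae_have 5 ↔ 2 := h.out 8 2
  tfae_finish

end Pool.Agent.Results.MP_8d161d_ag.FiniteImages
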