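import Pool.Agent.Y377.IL.AllC

/-!
# Entire curves given by iterated linear differential equations over arbitrary rings

Let `B` be a ring of meromorphic functions on the plane which is closed under differentiation, for
example the entire functions of order at most `lam`. We consider the smallest set of meromorphic
functions on the plane which contains the quotients of the functions in `B` and is closed under
sums, products and meromorphic solutions of linear systems `y' = A y` with coefficients in the set,
and the entire curves with homogeneous coordinates in this set. Each of them is algebraic over `B`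
or contained in the Zariski closure of the union of the rational curves. So the
Green-Griffiths-Lang conjecture for these curves is reduced to the curves which are algebraic over
`B` and the rational curves.
-/

set_option autoImplicit false

namespace Pool.Agent.Results.MP_8d161d_ag.IteratedOverRings

open Filter MvPolynomial
open scoped LinearAlgebra.Projectivization
open Pool.Agent.TH143.EL
open Pool.Agent.TH143.HE (RatCurvesIn IsPtP NonConst)
open Pool.Agent.TH143.GT (Slow)
open Pool.Agent.Y377.IL

variable {N : ℕ}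

/-- the Zariski closure of a set of points of the projective space -/
def ZClosure (S : Set (ℙ ℂ (Fin (N + 1) → ℂ))) : Set (ℙ ℂ (Fin (N + 1) → ℂ)) :=
  {p | ∀ G : MvPolynomial (Fin (N + 1)) ℂ, (∃ d, G.IsHomogeneous d) →
    (∀ x ∈ S, eval x.rep G = 0) → eval p.rep G = 0}

/-- nonconstant entire curves in the projective algebraic set of `I` -/
structure EntireCurve (I : Ideal (MvPolynomial (Fin (N + 1)) ℂ))
    (f : ℂ → ℙ ℂ (Fin (N + 1) → ℂ)) : Prop where
  hol : HolMap f
  mem : ∀ z, InV I (f z)
  nonconst : ∃ z w, f z ≠ f w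

/-- polynomial parametrisations of nonconstant rational curves in the algebraic set of `I` -/
def RationalCurve (I : Ideal (MvPolynomial (Fin (N + 1)) ℂ)) (p : Fin (N + 1) → Polynomial ℂ) :
    Prop :=
  (∀ t y, Rep y (fun j => (p j).eval t) → InV I y) ∧
    ∃ j k u v, (p j).eval u * (p k).eval v ≠ (p k).eval u * (p j).eval v

/-- the points of the nonconstant entire curves given by iterated linear differential equations over
`B` -/
def IteratedPoints (B : Subalgebra ℂ (ℂ → ℂ)) (I : Ideal (MvPolynomial (Fin (N + 1)) ℂ)) :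
    Set (ℙ ℂ (Fin (N + 1) → ℂ)) :=
  {x | ∃ f, EntireCurve I f ∧ IteratedOver B f ∧ ∃ z, f z = x}

/-- the points of the nonconstant entire curves which are algebraic over `B` -/
def AlgebraicPoints (B : Subalgebra ℂ (ℂ → ℂ)) (I : Ideal (MvPolynomial (Fin (N + 1)) ℂ)) :
    Set (ℙ ℂ (Fin (N + 1) → ℂ)) :=
  {x | ∃ f, EntireCurve I f ∧ AlgebraicOver B f ∧ ∃ z, f z = x}

/-- the points of the rational curves -/
def RationalPoints (I : Ideal (MvPolynomial (Fin (N + 1)) ℂ)) : Set (ℙ ℂ (Fin (N + 1) → ℂ)) :=
  {x | ∃ p : Fin (N + 1) → Polynomial ℂ, RationalCurve I p ∧ ∃ t, Rep x fun j => (p j).eval t}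

/-- some proper algebraic subset of the variety with the ideal `p` contains the set `S` -/
def InProperSubset (p : Ideal (MvPolynomial (Fin (N + 1)) ℂ))
    (S : Set (ℙ ℂ (Fin (N + 1) → ℂ))) : Prop :=
  ∃ G : MvPolynomial (Fin (N + 1)) ℂ, (∃ d, G.IsHomogeneous d) ∧ G ∉ p ∧
    ∀ x ∈ S, eval x.rep G = 0

theorem subset_ZClosure (S : Set (ℙ ℂ (Fin (N + 1) → ℂ))) : S ⊆ ZClosure S :=
  fun x hx _ _ h => h x hx

/-- the ideal generated by the forms vanishing on `S` -/
noncomputable def idealOf (S : Set (ℙ ℂ (Fin (N + 1) → ℂ))) :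
    Ideal (MvPolynomial (Fin (N + 1)) ℂ) :=
  Ideal.span {G | (∃ d, G.IsHomogeneous d) ∧ ∀ x ∈ S, eval x.rep G = 0}

theorem eval_idealOf {S : Set (ℙ ℂ (Fin (N + 1) → ℂ))} {x : ℙ ℂ (Fin (N + 1) → ℂ)} (hx : x ∈ S)
    {G : MvPolynomial (Fin (N + 1)) ℂ} (hG : G ∈ idealOf S) : eval x.rep G = 0 := by
  have h1 : idealOf S ≤ RingHom.ker (eval x.rep) := by
    unfold idealOf
    rw [Ideal.span_le]
    intro G hG
    exact hG.2 x hx
  exact h1 hG

theorem inV_idealOf_iff {S : Set (ℙ ℂ (Fin (N + 1) → ℂ))} {p : ℙ ℂ (Fin (N + 1) → ℂ)} :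
    InV (idealOf S) p ↔ p ∈ ZClosure S := by
  constructor
  · intro h G hG hGS
    exact h G (Ideal.subset_span ⟨hG, hGS⟩) hG
  · intro h G hG hGh
    exact h G hGh fun x hx => eval_idealOf hx hG

theorem ratCurves_idealOf (I : Ideal (MvPolynomial (Fin (N + 1)) ℂ)) :
    RatCurvesIn (RingHom.id ℂ) I (idealOf (RationalPoints I)) := by
  intro p hp hncp u G hG hGh
  obtain ⟨j0, k0, u1, v1, hne⟩ := hncp
  have hpj : ∃ j, p j ≠ 0 := by
    by_contra h0
    push Not at h0
    rw [h0 j0, h0 k0] at hne
    simp at hne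
  obtain ⟨j1, hj1⟩ := hpj
  have hzero : (aeval p G : Polynomial ℂ) = 0 := by
    apply nc_poly (q := fun z => z) (fun z => analyticAt_id.meromorphicAt) ?_ ?_
    · rintro ⟨c, hc⟩
      obtain ⟨z0, hz0⟩ := hc.exists
      have h2 : ∀ᶠ z in nhds z0, z = c := codis_nhds hc hz0
      have h3 := infinite_of_mem_nhds z0 h2
      exact h3 ((Set.finite_singleton c).subset fun z hz => hz)
    · filter_upwards [poly_codis hj1] with t ht
      rw [eval_comp_poly]
      have hv : (fun j => (p j).eval t) ≠ 0 := fun h0 => ht (congrFun h0 j1)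
      let x : ℙ ℂ (Fin (N + 1) → ℂ) := Projectivization.mk ℂ _ hv
      have hx : Rep x fun j => (p j).eval t := ⟨hv, rfl⟩
      have h1 := inV_idealOf_iff.2 (subset_ZClosure (RationalPoints I) ⟨p, ⟨fun t' y hy => by
          rw [inV_iff hy]
          intro G' hG' hGh'
          have := hp t' G' hG' hGh'
          rwa [eval₂_id] at this, ⟨j0, k0, u1, v1, hne⟩⟩, t, hx⟩)
      exact (inV_iff hx).1 h1 G hG hGh
  rw [eval₂_id, ← eval_comp_poly, hzero, Polynomial.eval_zero]

/-- rational curves are given by iterated linear differential equations -/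
theorem curve_of_rational (B : Subalgebra ℂ (ℂ → ℂ)) {I : Ideal (MvPolynomial (Fin (N + 1)) ℂ)}
    {p : Fin (N + 1) → Polynomial ℂ} (hp : RationalCurve I p) :
    ∃ f, EntireCurve I f ∧ IteratedOver B f ∧
      ∀ z x, Rep x (fun j => (p j).eval z) → f z = x := by
  obtain ⟨hI, j0, k0, u, v, hne⟩ := hp
  have hpj : ∃ j, p j ≠ 0 := by
    by_contra h0
    push Not at h0
    rw [h0 j0, h0 k0] at hne
    simp at hne
  obtain ⟨f, hf, hfr⟩ := exists_holMap p hpj
  obtain ⟨j1, hj1⟩ := hpj
  have hev : ∀ᶠ z in codiscrete ℂ, Rep (f z) fun j => (p j).eval z := by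
    filter_upwards [poly_codis hj1] with z hz
    exact hfr z fun h0 => hz (congrFun h0 j1)
  refine ⟨f, ⟨hf, fun z => inV_of_punct hf ?_, u, v, ?_⟩,
    ⟨fun j z => (p j).eval z, fun j => IterLin.poly B (p j), hev⟩, fun z x hx =>
      rep_eq (hfr z hx.1) hx⟩
  · filter_upwards [codis_ev hev z] with t ht
    exact hI t _ ht
  · intro h0
    have hu : (fun j => (p j).eval u) ≠ 0 := by
      intro h1
      apply hne
      rw [congrFun h1 j0, congrFun h1 k0]
      simp
    have hv : (fun j => (p j).eval v) ≠ 0 := by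
      intro h1
      apply hne
      rw [congrFun h1 j0, congrFun h1 k0]
      simp
    have h1 := hfr u hu
    have h2 := hfr v hv
    rw [← h0] at h2
    apply hne
    obtain ⟨_, h3⟩ := h1
    obtain ⟨_, h4⟩ := h2
    rw [h3, Projectivization.mk_eq_mk_iff'] at h4
    obtain ⟨c, hc⟩ := h4
    have h5 : (p j0).eval u = c * (p j0).eval v := (congrFun hc j0).symm
    have h6 : (p k0).eval u = c * (p k0).eval v := (congrFun hc k0).symm
    rw [h5, h6]
    ring

theorem alternative {B : Subalgebra ℂ (ℂ → ℂ)} (hB : DB B)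
    {I : Ideal (MvPolynomial (Fin (N + 1)) ℂ)} {f : ℂ → ℙ ℂ (Fin (N + 1) → ℂ)}
    (hf : EntireCurve I f) (hl : IteratedOver B f) :
    (∀ z, f z ∈ ZClosure (RationalPoints I)) ∨ AlgebraicOver B f := by
  rcases dich_gen (ratCurves_idealOf I) hB hf.hol hl hf.mem with h1 | h1
  · exact Or.inl fun z => inV_idealOf_iff.1 (h1 z)
  · exact Or.inr h1

/-- Let `B` be a ring of meromorphic functions on the plane which is closed under differentiation,
for instance the ring of the entire functions of order at most `lam`.

(1) Every nonconstant entire curve given by iterated linear differential equations over `B` in a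
projective algebraic set `X` is algebraic over `B` or contained in the Zariski closure of the union
of the rational curves in `X`.

(2) The Zariski closure of the union of the nonconstant entire curves in `X` given by iterated linear
differential equations over `B` is the Zariski closure of the union of the rational curves in `X`
and the nonconstant entire curves in `X` which are algebraic over `B`.

(3) Let `X` be a projective variety (with the prime ideal `p`). A proper algebraic subset of `X`
contains all nonconstant entire curves given by iterated linear differential equations over `B` if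
and only if proper algebraic subsets of `X` contain all rational curves in `X` and all nonconstant
entire curves which are algebraic over `B`. -/
theorem result :
    (∀ B : Subalgebra ℂ (ℂ → ℂ), DB B →
      (∀ (I : Ideal (MvPolynomial (Fin (N + 1)) ℂ)) f, EntireCurve I f → IteratedOver B f →
        (∀ z, f z ∈ ZClosure (RationalPoints I)) ∨ AlgebraicOver B f) ∧
      (∀ I : Ideal (MvPolynomial (Fin (N + 1)) ℂ), ZClosure (IteratedPoints B I) =
        ZClosure (RationalPoints I ∪ AlgebraicPoints B I)) ∧
      ∀ p : Ideal (MvPolynomial (Fin (N + 1)) ℂ), p.IsPrime →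
        (InProperSubset p (IteratedPoints B p) ↔
          InProperSubset p (RationalPoints p) ∧ InProperSubset p (AlgebraicPoints B p))) ∧
    ∀ (lam : ℝ) (hlam : 0 ≤ lam), DB (Slow lam hlam) := by
  have hrat : ∀ (B : Subalgebra ℂ (ℂ → ℂ)) (I : Ideal (MvPolynomial (Fin (N + 1)) ℂ)),
      RationalPoints I ⊆ IteratedPoints B I := by
    rintro B I x ⟨q, hq, t, hx⟩
    obtain ⟨f, h1, h2, h3⟩ := curve_of_rational B hq
    exact ⟨f, h1, h2, t, h3 t x hx⟩
  have halg : ∀ (B : Subalgebra ℂ (ℂ → ℂ)), DB B → ∀ I : Ideal (MvPolynomial (Fin (N + 1)) ℂ),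
      AlgebraicPoints B I ⊆ IteratedPoints B I := by
    rintro B hB I x ⟨f, hf, ha, z, hz⟩
    exact ⟨f, hf, iterated_of_algebraic hB hf.hol ha, z, hz⟩
  refine ⟨fun B hB => ⟨fun I f hf hl => alternative hB hf hl, fun I => ?_, fun p hp => ?_⟩,
    db_slow⟩
  · apply Set.Subset.antisymm
    · intro x hx G hG hGS
      apply hx G hG
      rintro y ⟨f, hf, hl, z, rfl⟩
      rcases alternative hB hf hl with h1 | h1
      · exact h1 z G hG fun y hy => hGS y (Or.inl hy)
      · exact hGS _ (Or.inr ⟨f, hf, h1, z, rfl⟩)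
    · intro x hx G hG hGS
      apply hx G hG
      rintro y (hy | hy)
      · exact hGS y (hrat B I hy)
      · exact hGS y (halg B hB I hy)
  · constructor
    · rintro ⟨G, hG, hGp, h0⟩
      exact ⟨⟨G, hG, hGp, fun x hx => h0 x (hrat B p hx)⟩,
        ⟨G, hG, hGp, fun x hx => h0 x (halg B hB p hx)⟩⟩
    · rintro ⟨⟨G1, ⟨d1, hG1⟩, hGp1, h1⟩, ⟨G2, ⟨d2, hG2⟩, hGp2, h2⟩⟩
      refine ⟨G1 * G2, ⟨d1 + d2, hG1.mul hG2⟩, fun h3 => ?_, ?_⟩
      · rcases hp.mem_or_mem h3 with h4 | h4
        · exact hGp1 h4
        · exact hGp2 h4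
      · rintro x ⟨f, hf, hl, z, rfl⟩
        rw [map_mul]
        rcases alternative hB hf hl with h4 | h4
        · rw [h4 z G1 ⟨d1, hG1⟩ h1, zero_mul]
        · rw [h2 _ ⟨f, hf, h4, z, rfl⟩, mul_zero]

end Pool.Agent.Results.MP_8d161d_ag.IteratedOverRings
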